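import Pool.Agent.EGZ81.AD

/-!
# The Erdős-Ginzburg-Ziv constant of `(Z/n)^r` is at most `binom(2r, r) (n - 1) + 1`
-/

set_option autoImplicit false

namespace Pool.Agent.Results.MP_fc504f_co.AlonDubiner

open Finset

/-- Every sequence of length `s` over `(Z/n)^r` has a subsequence of length `n` with sum zero. -/
def HasZeroSum (n r s : ℕ) : Prop :=
  ∀ g : Fin s → (Fin r → ZMod n), ∃ S : Finset (Fin s), S.card = n ∧ ∑ i ∈ S, g i = 0

/-- The Erdős-Ginzburg-Ziv constant of `(Z/n)^r`: the least `s` such that every sequence of length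
`s` over `(Z/n)^r` has a subsequence of length `n` with sum zero. -/
noncomputable def egz (n r : ℕ) : ℕ := sInf {s : ℕ | HasZeroSum n r s}

/-- `X ⊆ (Z/m)^n` is admissible: no `m` pairwise distinct vectors of `X` have sum zero. -/
def Admissible (m n : ℕ) (X : Finset (Fin n → ZMod m)) : Prop :=
  ∀ x : Fin m → (Fin n → ZMod m), Function.Injective x → (∀ i, x i ∈ X) → ∑ i, x i ≠ 0

/-- `f_m(n)`: the largest cardinality of an admissible subset of `(Z/m)^n`. -/
noncomputable def f (m n : ℕ) : ℕ :=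
  sSup {k : ℕ | ∃ X : Finset (Fin n → ZMod m), Admissible m n X ∧ X.card = k}

lemma hasZeroSum_mono {n r s t : ℕ} (h : HasZeroSum n r s) (hst : s ≤ t) : HasZeroSum n r t := by
  intro g
  obtain ⟨S, hc, hs⟩ := h (fun i => g (Fin.castLE hst i))
  refine ⟨S.map (Fin.castLEEmb hst), by rw [card_map, hc], ?_⟩
  rw [sum_map]
  exact hs

lemma adm_card_le {m n : ℕ} (hm : 1 ≤ m) (X : Finset (Fin n → ZMod m)) (hX : Admissible m n X) :
    X.card ≤ (m - 1) * (2 * n).choose n := by
  by_contra hcon
  have h1 : (2 * n).choose n * (m - 1) + 1 ≤ X.card := by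
    rw [mul_comm]; omega
  obtain ⟨S, hS, hc, hd⟩ := Pool.Agent.EGZ81.good_all n m hm (Fin n → ZMod m) X
    (fun v c => ((v c).cast : ℤ)) h1
  let e : Fin m ≃ S := (Fintype.equivFinOfCardEq (by rw [Fintype.card_coe, hc])).symm
  refine hX (fun i => (e i : Fin n → ZMod m)) ?_ (fun i => hS (e i).2) ?_
  · intro i j hij
    exact e.injective (Subtype.ext hij)
  · rw [Equiv.sum_comp e (fun v : S => (v : Fin n → ZMod m)), Finset.sum_coe_sort S (fun v => v)]
    funext c
    have h2 := (ZMod.intCast_zmod_eq_zero_iff_dvd _ m).mpr (hd c)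
    push_cast at h2
    rw [Finset.sum_apply, Pi.zero_apply, ← h2]

/-- **Main result.** For all `n ≥ 1` and all `r`, the Erdős-Ginzburg-Ziv constant of `(Z/n)^r` is at
most `binom(2r, r) (n - 1) + 1`, in particular at most `4^r (n - 1) + 1`; and for all `m ≥ 1` and all
`n`, a subset of `(Z/m)^n` without `m` distinct vectors of sum zero has at most `(m-1) binom(2n, n)`
elements. -/
theorem result :
    (∀ n r : ℕ, 1 ≤ n → (∀ s : ℕ, egz n r ≤ s ↔ HasZeroSum n r s) ∧
      egz n r ≤ (2 * r).choose r * (n - 1) + 1 ∧ egz n r ≤ 4 ^ r * (n - 1) + 1) ∧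
    (∀ m n : ℕ, 1 ≤ m → f m n ≤ (m - 1) * (2 * n).choose n) := by
  constructor
  · intro n r hn
    have hne : HasZeroSum n r ((2 * r).choose r * (n - 1) + 1) := fun g =>
      Pool.Agent.EGZ81.exists_zero_sum r n _ hn le_rfl g
    have hle : egz n r ≤ (2 * r).choose r * (n - 1) + 1 := Nat.sInf_le hne
    have hmem : HasZeroSum n r (egz n r) := by
      have h : egz n r ∈ {s : ℕ | HasZeroSum n r s} := Nat.sInf_mem (s := {s : ℕ | HasZeroSum n r s}) ⟨_, hne⟩
      exact h
    refine ⟨fun s => ⟨fun h => hasZeroSum_mono hmem h, fun h => Nat.sInf_le h⟩, hle, hle.trans ?_⟩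
    have h4 : (2 * r).choose r ≤ 4 ^ r := by
      refine (Nat.choose_le_two_pow _ _).trans ?_
      rw [pow_mul]
      norm_num
    have := Nat.mul_le_mul_right (n - 1) h4
    omega
  · intro m n hm
    unfold f
    rcases Set.eq_empty_or_nonempty
      {k : ℕ | ∃ X : Finset (Fin n → ZMod m), Admissible m n X ∧ X.card = k} with he | hne
    · rw [he, csSup_empty]
      exact Nat.zero_le _
    · apply csSup_le hne
      rintro k ⟨X, hX, rfl⟩
      exact adm_card_le hm X hX

end Pool.Agent.Results.MP_fc504f_co.AlonDubiner
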