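import Pool.Agent.EGZ4.Main

/-!
# `Λ_p ≤ Γ_p < 4` for every prime `p`

For every prime `p` and every `n`, a subset of `F_p^n` without `p` distinct vectors of sum zero has at
most `(2p - 2) · #{a ∈ {0, ..., p-1}^n : p · (a_1 + ... + a_n) ≤ (p - 1) n}` elements. Hence
`Λ_p ≤ Γ_p = inf_{0 < t < 1} (1 + t + ... + t^(p-1)) · t^(-(p-1)/p) < 4`.
-/

namespace Pool.Agent.Results.MP_fc504f_co.FourBound

open Finset Filter

/-- `X ⊆ (Z/m)^n` is admissible: no `m` pairwise distinct vectors of `X` have sum zero. -/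
def Admissible (m n : ℕ) (X : Finset (Fin n → ZMod m)) : Prop :=
  ∀ x : Fin m → (Fin n → ZMod m), Function.Injective x → (∀ i, x i ∈ X) → ∑ i, x i ≠ 0

/-- `f_m(n)`: the largest cardinality of an admissible subset of `(Z/m)^n`. -/
noncomputable def f (m n : ℕ) : ℕ :=
  sSup {k : ℕ | ∃ X : Finset (Fin n → ZMod m), Admissible m n X ∧ X.card = k}

/-- `Λ_m = limsup_{n → ∞} f_m(n)^{1/n}`. -/
noncomputable def Lam (m : ℕ) : ℝ :=
  limsup (fun n : ℕ => ((f m n : ℕ) : ℝ) ^ (1 / (n : ℝ))) atTop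

/-- `D(p,n)`: the number of `a ∈ {0, ..., p-1}^n` with `p · (a_1 + ... + a_n) ≤ (p - 1) · n`. -/
def D (p n : ℕ) : ℕ :=
  (univ.filter (fun a : Fin n → Fin p => p * ∑ i, (a i : ℕ) ≤ (p - 1) * n)).card

/-- `γ_p(t) = (1 + t + ... + t^(p-1)) / t^((p-1)/p)`. -/
noncomputable def gam (p : ℕ) (t : ℝ) : ℝ :=
  (∑ j ∈ range p, t ^ j) / t ^ (((p : ℝ) - 1) / p)

/-- `Γ_p = inf_{0 < t < 1} γ_p(t)`. -/
noncomputable def Gam (p : ℕ) : ℝ := ⨅ t : Set.Ioo (0 : ℝ) 1, gam p t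

/-! ### Counting monomials of low degree -/

lemma gam_nonneg (p : ℕ) {t : ℝ} (ht : 0 < t) : 0 ≤ gam p t :=
  div_nonneg (sum_nonneg fun _ _ => pow_nonneg ht.le _) (Real.rpow_nonneg ht.le _)

lemma D_le (p n : ℕ) (hp : 2 ≤ p) (t : ℝ) (ht0 : 0 < t) (ht1 : t < 1) :
    (D p n : ℝ) ≤ gam p t ^ n := by
  have hp0 : (0 : ℝ) < p := by exact_mod_cast (by omega : 0 < p)
  have h1 : ∑ m : Fin n → Fin p, t ^ (∑ i, (m i : ℕ)) = (∑ j ∈ range p, t ^ j) ^ n := by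
    rw [← Fin.sum_univ_eq_sum_range (fun j => t ^ j) p]
    have h2 : (∑ j : Fin p, t ^ (j : ℕ)) ^ n = ∏ _i : Fin n, ∑ j : Fin p, t ^ (j : ℕ) := by
      rw [prod_const, card_univ, Fintype.card_fin]
    rw [h2, prod_univ_sum]
    simp only [Fintype.piFinset_univ]
    apply sum_congr rfl
    intro m _
    rw [prod_pow_eq_pow_sum]
  set y : ℝ := t ^ (((p : ℝ) - 1) / p) with hy
  have hy0 : 0 < y := Real.rpow_pos_of_pos ht0 _
  have h3 : ∀ m ∈ univ.filter (fun a : Fin n → Fin p => p * ∑ i, (a i : ℕ) ≤ (p - 1) * n),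
      y ^ n ≤ t ^ (∑ i, (m i : ℕ)) := by
    intro m hm
    rw [mem_filter] at hm
    have h4 : (∑ i, (m i : ℕ) : ℕ) ≤ (((p : ℝ) - 1) / p) * n := by
      have h5 : (p : ℝ) * ((∑ i, (m i : ℕ) : ℕ) : ℝ) ≤ ((p : ℝ) - 1) * n := by
        have h6 : ((p * ∑ i, (m i : ℕ) : ℕ) : ℝ) ≤ (((p - 1) * n : ℕ) : ℝ) := by
          exact_mod_cast hm.2
        rw [Nat.cast_mul, Nat.cast_mul, Nat.cast_sub (by omega)] at h6
        simpa using h6
      rw [div_mul_eq_mul_div, le_div_iff₀ hp0]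
      linarith
    calc y ^ n = t ^ ((((p : ℝ) - 1) / p) * n) := by
          rw [hy, ← Real.rpow_natCast, ← Real.rpow_mul ht0.le]
      _ ≤ t ^ ((∑ i, (m i : ℕ) : ℕ) : ℝ) := Real.rpow_le_rpow_of_exponent_ge ht0 ht1.le h4
      _ = _ := Real.rpow_natCast _ _
  have h7 : (D p n : ℝ) * y ^ n ≤ (∑ j ∈ range p, t ^ j) ^ n := by
    rw [← h1]
    calc (D p n : ℝ) * y ^ n =
        ∑ m ∈ univ.filter (fun a : Fin n → Fin p => p * ∑ i, (a i : ℕ) ≤ (p - 1) * n), y ^ n := by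
          rw [sum_const, nsmul_eq_mul, D]
      _ ≤ ∑ m ∈ univ.filter (fun a : Fin n → Fin p => p * ∑ i, (a i : ℕ) ≤ (p - 1) * n),
          t ^ (∑ i, (m i : ℕ)) := sum_le_sum h3
      _ ≤ _ := sum_le_sum_of_subset_of_nonneg (subset_univ _)
          (fun m _ _ => pow_nonneg ht0.le _)
  rw [gam, ← hy, div_pow, le_div_iff₀ (pow_pos hy0 n)]
  exact h7

lemma bdd (p : ℕ) : BddBelow (Set.range fun t : Set.Ioo (0 : ℝ) 1 => gam p t) :=
  ⟨0, by rintro _ ⟨t, rfl⟩; exact gam_nonneg p t.2.1⟩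

instance : Nonempty (Set.Ioo (0 : ℝ) 1) := ⟨⟨1 / 2, by norm_num, by norm_num⟩⟩

lemma Gam_nonneg (p : ℕ) : 0 ≤ Gam p := le_ciInf fun t => gam_nonneg p t.2.1

lemma Gam_le (p : ℕ) {t : ℝ} (ht0 : 0 < t) (ht1 : t < 1) : Gam p ≤ gam p t :=
  ciInf_le (bdd p) (⟨t, ht0, ht1⟩ : Set.Ioo (0 : ℝ) 1)

/-- The count of low exponent vectors is at most `Γ_p^n`. -/
lemma D_le_Gam (p n : ℕ) (hp : 2 ≤ p) : (D p n : ℝ) ≤ Gam p ^ n := by
  rcases Nat.eq_zero_or_pos n with rfl | hn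
  · have := D_le p 0 hp (1 / 2) (by norm_num) (by norm_num)
    simpa using this
  · have h1 : (D p n : ℝ) ^ ((n : ℝ)⁻¹) ≤ Gam p := by
      apply le_ciInf
      intro t
      have h2 := D_le p n hp t t.2.1 t.2.2
      calc (D p n : ℝ) ^ ((n : ℝ)⁻¹) ≤ (gam p t ^ n) ^ ((n : ℝ)⁻¹) :=
            Real.rpow_le_rpow (Nat.cast_nonneg _) h2 (by positivity)
        _ = gam p t := Real.pow_rpow_inv_natCast (gam_nonneg p t.2.1) (by omega)
    calc (D p n : ℝ) = ((D p n : ℝ) ^ ((n : ℝ)⁻¹)) ^ n :=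
          (Real.rpow_inv_natCast_pow (Nat.cast_nonneg _) (by omega)).symm
      _ ≤ Gam p ^ n := pow_le_pow_left₀ (by positivity) h1 n

/-! ### Numerical bounds for `Γ_p` -/

/-- `Γ_p < 4`, from `t = 1/2`. -/
lemma Gam_lt_four (p : ℕ) (hp : 2 ≤ p) : Gam p < 4 := by
  have hp0 : (0 : ℝ) < p := by exact_mod_cast (by omega : 0 < p)
  refine lt_of_le_of_lt (Gam_le p (t := 1 / 2) (by norm_num) (by norm_num)) ?_
  have h1 : ∑ j ∈ range p, (1 / 2 : ℝ) ^ j < 2 := by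
    rw [geom_sum_eq (by norm_num)]
    have : (0 : ℝ) < (1 / 2) ^ p := by positivity
    rw [div_lt_iff_of_neg (by norm_num)]
    linarith
  have h2 : (1 / 2 : ℝ) < (1 / 2 : ℝ) ^ (((p : ℝ) - 1) / p) := by
    have h3 : ((p : ℝ) - 1) / p < 1 := by rw [div_lt_one hp0]; linarith
    calc (1 / 2 : ℝ) = (1 / 2 : ℝ) ^ (1 : ℝ) := (Real.rpow_one _).symm
      _ < (1 / 2 : ℝ) ^ (((p : ℝ) - 1) / p) :=
          Real.rpow_lt_rpow_of_exponent_gt (by norm_num) (by norm_num) h3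
  have h4 : 0 < (1 / 2 : ℝ) ^ (((p : ℝ) - 1) / p) := by linarith
  rw [gam, div_lt_iff₀ h4]
  linarith

/-- Numerical upper bound for `Γ_p`. -/
lemma Gam_le_num (p : ℕ) (hp : 2 ≤ p) (t θ : ℝ) (ht0 : 0 < t) (ht1 : t < 1) (hθ : 0 ≤ θ)
    (h : (∑ j ∈ range p, t ^ j) ^ p ≤ θ ^ p * t ^ (p - 1)) : Gam p ≤ θ := by
  have hp0 : (0 : ℝ) < p := by exact_mod_cast (by omega : 0 < p)
  refine (Gam_le p ht0 ht1).trans ?_
  have hy0 : 0 < t ^ (((p : ℝ) - 1) / p) := Real.rpow_pos_of_pos ht0 _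
  have e1 : (t ^ (((p : ℝ) - 1) / p)) ^ p = t ^ (p - 1) := by
    rw [← Real.rpow_natCast, ← Real.rpow_mul ht0.le, ← Real.rpow_natCast]
    congr 1
    rw [Nat.cast_sub (by omega)]
    field_simp
    simp
  rw [gam, div_le_iff₀ hy0]
  rw [← e1, ← mul_pow] at h
  exact le_of_pow_le_pow_left₀ (by omega) (by positivity) h

/-! ### The growth rate -/

lemma lam_le {m : ℕ} {C θ : ℝ} (hC : 0 < C) (hθ : 0 ≤ θ)
    (h : ∀ N : ℕ, (f m N : ℝ) ≤ C * θ ^ N) : Lam m ≤ θ := by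
  apply le_of_forall_gt_imp_ge_of_dense
  intro c hc
  have hlim : Tendsto (fun n : ℕ => C ^ (1 / (n : ℝ)) * θ) atTop (nhds (1 * θ)) := by
    apply Tendsto.mul_const
    have h0 : Tendsto (fun n : ℕ => 1 / (n : ℝ)) atTop (nhds 0) := tendsto_one_div_atTop_nhds_zero_nat
    have h1 := (tendsto_const_nhds (x := C) (f := (atTop : Filter ℕ))).rpow h0 (Or.inl hC.ne')
    rwa [Real.rpow_zero] at h1
  rw [one_mul] at hlim
  have hev : ∀ᶠ n : ℕ in atTop, C ^ (1 / (n : ℝ)) * θ < c := hlim.eventually (gt_mem_nhds hc)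
  have hev2 : ∀ᶠ n : ℕ in atTop, ((f m n : ℕ) : ℝ) ^ (1 / (n : ℝ)) ≤ c := by
    filter_upwards [hev, eventually_ge_atTop 1] with n hn hn1
    refine le_trans ?_ hn.le
    calc ((f m n : ℕ) : ℝ) ^ (1 / (n : ℝ)) ≤ (C * θ ^ n) ^ (1 / (n : ℝ)) :=
          Real.rpow_le_rpow (Nat.cast_nonneg _) (h n) (by positivity)
      _ = C ^ (1 / (n : ℝ)) * θ := by
          rw [Real.mul_rpow hC.le (by positivity)]
          congr 1
          rw [one_div, Real.pow_rpow_inv_natCast hθ (by omega)]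
  refine limsup_le_of_le ?_ hev2
  exact isCoboundedUnder_le_of_le atTop (x := 0) (fun n => by positivity)

/-- Admissible sets satisfy the hypothesis of the main bound. -/
lemma adm_finset {p n : ℕ} {X : Finset (Fin n → ZMod p)} (hX : Admissible p n X) :
    ∀ Z ⊆ X, Z.card = p → ∑ x ∈ Z, x ≠ 0 := by
  intro Z hZ hc
  let e : Fin p ≃ Z := (finCongr hc.symm).trans Z.equivFin.symm
  have h := hX (fun i => (e i : Fin n → ZMod p)) (fun i j hij => e.injective (Subtype.ext hij))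
    (fun i => hZ (e i).2)
  have hs : ∑ i, ((e i : Z) : Fin n → ZMod p) = ∑ x ∈ Z, x := by
    rw [Equiv.sum_comp e (fun z : Z => (z : Fin n → ZMod p))]
    exact Finset.sum_coe_sort Z (fun x => x)
  rwa [hs] at h

/-- The bound by the number of monomials of low degree. -/
lemma f_le (p : ℕ) (hp : p.Prime) (n : ℕ) : f p n ≤ (2 * p - 2) * D p n := by
  have : Fact p.Prime := ⟨hp⟩
  unfold f
  rcases Set.eq_empty_or_nonempty
    {k : ℕ | ∃ X : Finset (Fin n → ZMod p), Admissible p n X ∧ X.card = k} with he | hne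
  · rw [he, csSup_empty]
    exact Nat.zero_le _
  · apply csSup_le hne
    rintro k ⟨X, hX, rfl⟩
    exact EGZ4.main X (adm_finset hX)

/-- **Main result.** For every prime `p`:
`f_p(n) ≤ (2p - 2) · D(p,n) ≤ (2p - 2) · Γ_p^n` for all `n`, hence `Λ_p ≤ Γ_p`, and `Γ_p < 4`.
Moreover `Γ_5 < 3.372` and `Γ_7 < 3.586`. -/
theorem result :
    (∀ p : ℕ, p.Prime →
      (∀ n : ℕ, f p n ≤ (2 * p - 2) * D p n) ∧
      (∀ n : ℕ, (f p n : ℝ) ≤ (2 * (p : ℝ) - 2) * Gam p ^ n) ∧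
      Lam p ≤ Gam p ∧ Gam p < 4) ∧
    Gam 5 < 3.372 ∧ Gam 7 < 3.586 := by
  refine ⟨fun p hp => ?_, ?_, ?_⟩
  · have hp2 := hp.two_le
    have hp2R : (2 : ℝ) ≤ p := by exact_mod_cast hp2
    have h2 : ∀ n : ℕ, (f p n : ℝ) ≤ (2 * (p : ℝ) - 2) * Gam p ^ n := by
      intro n
      have h3 : (f p n : ℝ) ≤ ((2 * p - 2 : ℕ) : ℝ) * D p n := by exact_mod_cast f_le p hp n
      rw [Nat.cast_sub (by omega), Nat.cast_mul] at h3
      refine h3.trans ?_
      have h4 := D_le_Gam p n hp2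
      have h5 : (0 : ℝ) ≤ 2 * (p : ℝ) - 2 := by linarith
      exact mul_le_mul_of_nonneg_left h4 h5
    exact ⟨f_le p hp, h2, lam_le (by linarith) (Gam_nonneg p) h2, Gam_lt_four p hp2⟩
  · refine lt_of_le_of_lt (Gam_le_num 5 (by norm_num) (12 / 25) 3.3714 (by norm_num) (by norm_num)
      (by norm_num) ?_) (by norm_num)
    simp only [sum_range_succ, sum_range_zero]
    norm_num
  · refine lt_of_le_of_lt (Gam_le_num 7 (by norm_num) (47 / 100) 3.5858 (by norm_num) (by norm_num)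
      (by norm_num) ?_) (by norm_num)
    simp only [sum_range_succ, sum_range_zero]
    norm_num

end Pool.Agent.Results.MP_fc504f_co.FourBound
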