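import Pool.Agent.EGZ17.Sets
import Pool.Agent.EGZ81.AD

/-!
# Lower bound `(2/3) 2.1973^n (m - 1) + 1` for the Erdős-Ginzburg-Ziv constant of `(Z/m)^n`, `m` odd

The bound comes from one set `X_n` of vectors with coordinates in `{-1, 0, 1}`, the same for all odd
`m`, such that each sequence of `m` members of `X_n` with sum divisible by `m` is constant.
-/

set_option autoImplicit false

namespace Pool.Agent.Results.MP_fc504f_co.GrowthBound

open Finset Filter Pool.Agent.EGZ17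

/-- Every sequence of length `s` over `(Z/m)^n` has a subsequence of length `m` with sum zero. -/
def HasZeroSum (m n s : ℕ) : Prop :=
  ∀ g : Fin s → (Fin n → ZMod m), ∃ S : Finset (Fin s), S.card = m ∧ ∑ i ∈ S, g i = 0

/-- The Erdős-Ginzburg-Ziv constant of `(Z/m)^n`: the least `s` such that every sequence of length
`s` over `(Z/m)^n` has a subsequence of length `m` with sum zero. -/
noncomputable def egz (m n : ℕ) : ℕ := sInf {s : ℕ | HasZeroSum m n s}

/-- `X ⊆ (Z/m)^n` is admissible: no `m` pairwise distinct vectors of `X` have sum zero. -/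
def Admissible (m n : ℕ) (X : Finset (Fin n → ZMod m)) : Prop :=
  ∀ x : Fin m → (Fin n → ZMod m), Function.Injective x → (∀ i, x i ∈ X) → ∑ i, x i ≠ 0

/-- `f_m(n)`: the largest cardinality of an admissible subset of `(Z/m)^n`. -/
noncomputable def f (m n : ℕ) : ℕ :=
  sSup {k : ℕ | ∃ X : Finset (Fin n → ZMod m), Admissible m n X ∧ X.card = k}

/-- `Λ_m = limsup_{n → ∞} f_m(n)^{1/n}`. -/
noncomputable def Lam (m : ℕ) : ℝ :=
  limsup (fun n : ℕ => ((f m n : ℕ) : ℝ) ^ (1 / (n : ℝ))) atTop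

lemma hasZeroSum_mono {m n s t : ℕ} (h : HasZeroSum m n s) (hst : s ≤ t) : HasZeroSum m n t := by
  intro g
  obtain ⟨S, hc, hs⟩ := h (fun i => g (Fin.castLE hst i))
  refine ⟨S.map (Fin.castLEEmb hst), by rw [card_map, hc], ?_⟩
  rw [sum_map]
  exact hs

/-- Each member of `X` taken `m - 1` times: no subsequence of length `m` has sum zero. -/
lemma card_lt {m n s : ℕ} (hm : Odd m) (h3 : 3 ≤ m) {X : Finset (Fin n → ℤ)} (hX : Good X)
    (hs : HasZeroSum m n s) : X.card * (m - 1) < s := by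
  classical
  by_contra hcon
  rw [not_lt] at hcon
  have h1 := hasZeroSum_mono hs hcon
  let E : Fin (X.card * (m - 1)) ≃ X × Fin (m - 1) :=
    (Fintype.equivFinOfCardEq (by rw [Fintype.card_prod, Fintype.card_coe, Fintype.card_fin])).symm
  obtain ⟨S, hc, hsum⟩ := h1 (fun i c => (((E i).1 : Fin n → ℤ) c : ZMod m))
  let e : Fin m ≃ S := (Fintype.equivFinOfCardEq (by rw [Fintype.card_coe, hc])).symm
  have h2 : ∀ c, (m : ℤ) ∣ ∑ j, ((E (e j)).1 : Fin n → ℤ) c := by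
    intro c
    rw [← ZMod.intCast_zmod_eq_zero_iff_dvd]
    have h4 := congrFun hsum c
    rw [Finset.sum_apply, Pi.zero_apply, ← Finset.sum_coe_sort S] at h4
    rw [← h4, ← Equiv.sum_comp e]
    push_cast
    rfl
  have h5 := hX m hm (fun j => ((E (e j)).1 : Fin n → ℤ)) (fun j => (E (e j)).1.2) h2
  have hinj : Function.Injective (fun j : Fin m => (E (e j)).2) := by
    intro j k hjk
    have h6 : E (e j) = E (e k) := Prod.ext (Subtype.ext (h5 j k)) hjk
    exact e.injective (Subtype.ext (E.injective h6))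
  have := Fintype.card_le_of_injective _ hinj
  rw [Fintype.card_fin, Fintype.card_fin] at this
  omega

lemma card_le {m : ℕ} [NeZero m] (n : ℕ) (X : Finset (Fin n → ZMod m)) : X.card ≤ m ^ n := by
  have := card_le_univ X
  simpa [ZMod.card] using this

lemma le_f {m : ℕ} [NeZero m] {n : ℕ} {X : Finset (Fin n → ZMod m)} (hX : Admissible m n X) :
    X.card ≤ f m n := by
  apply le_csSup
  · exact ⟨m ^ n, by rintro k ⟨Y, _, rfl⟩; exact card_le n Y⟩
  · exact ⟨X, hX, rfl⟩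

lemma f_le {m : ℕ} [NeZero m] (n : ℕ) : f m n ≤ m ^ n := by
  apply csSup_le'
  rintro k ⟨Y, _, rfl⟩
  exact card_le n Y

/-- The set modulo `m`. -/
lemma good_le_f {m n : ℕ} (hm : Odd m) (h3 : 3 ≤ m) {X : Finset (Fin n → ℤ)}
    (h1 : ∀ x ∈ X, ∀ i, |x i| ≤ 1) (hX : Good X) : X.card ≤ f m n := by
  classical
  have : NeZero m := ⟨by omega⟩
  let φ : (Fin n → ℤ) → (Fin n → ZMod m) := fun x c => (x c : ZMod m)
  have hinj : Set.InjOn φ X := by
    intro x hx y hy hxy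
    funext c
    have h4 : (x c : ZMod m) = (y c : ZMod m) := congrFun hxy c
    rw [ZMod.intCast_eq_intCast_iff_dvd_sub] at h4
    have h5 : |y c - x c| < (m : ℤ) := by
      have h6 := abs_le.mp (h1 x hx c)
      have h7 := abs_le.mp (h1 y hy c)
      rw [abs_lt]
      constructor <;> omega
    have h8 := Int.eq_zero_of_abs_lt_dvd h4 h5
    omega
  rw [← Finset.card_image_of_injOn hinj]
  apply le_f
  intro x hxi hx hs
  have h4 : ∀ j, ∃ y ∈ X, φ y = x j := fun j => Finset.mem_image.mp (hx j)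
  choose y hy hyx using h4
  have h5 : ∀ c, (m : ℤ) ∣ ∑ j, y j c := by
    intro c
    rw [← ZMod.intCast_zmod_eq_zero_iff_dvd]
    have h6 := congrFun hs c
    rw [Finset.sum_apply, Pi.zero_apply] at h6
    rw [← h6]
    push_cast
    refine Finset.sum_congr rfl fun j _ => ?_
    rw [← hyx j]
  have h01 : (⟨0, by omega⟩ : Fin m) ≠ ⟨1, by omega⟩ := by
    intro h; simp at h
  apply h01
  apply hxi
  rw [← hyx, ← hyx, hX m hm y hy h5 ⟨0, by omega⟩ ⟨1, by omega⟩]

lemma root_le {m : ℕ} (h3 : 3 ≤ m) (n : ℕ) : ((f m n : ℕ) : ℝ) ^ (1 / (n : ℝ)) ≤ m := by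
  have : NeZero m := ⟨by omega⟩
  have hm1 : (1 : ℝ) ≤ m := by exact_mod_cast (by omega : 1 ≤ m)
  rcases Nat.eq_zero_or_pos n with rfl | hn
  · simp only [Nat.cast_zero, div_zero, Real.rpow_zero]; exact hm1
  · have h : ((f m n : ℕ) : ℝ) ≤ (m : ℝ) ^ n := by exact_mod_cast f_le (m := m) n
    calc ((f m n : ℕ) : ℝ) ^ (1 / (n : ℝ)) ≤ ((m : ℝ) ^ n) ^ (1 / (n : ℝ)) :=
          Real.rpow_le_rpow (by positivity) h (by positivity)
      _ = m := by
          rw [one_div, Real.pow_rpow_inv_natCast (by positivity) (by omega)]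

lemma le_Lam {m : ℕ} (h3 : 3 ≤ m) (h : ∀ n : ℕ, 2 / 3 * rho ^ n ≤ f m n) : rho ≤ Lam m := by
  apply le_of_forall_lt
  intro c hc
  obtain ⟨c', hc1, hc2⟩ := exists_between (max_lt hc rho_pos)
  have hc0 : 0 < c' := lt_of_le_of_lt (le_max_right _ _) hc1
  have hcc : c < c' := lt_of_le_of_lt (le_max_left _ _) hc1
  refine lt_of_lt_of_le hcc ?_
  have hb : IsBoundedUnder (· ≤ ·) atTop
      (fun n : ℕ => ((f m n : ℕ) : ℝ) ^ (1 / (n : ℝ))) :=
    isBoundedUnder_of ⟨(m : ℝ), fun n => root_le h3 n⟩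
  refine le_limsup_of_frequently_le ?_ hb
  have hlim : Tendsto (fun n : ℕ => (c' / rho) ^ n) atTop (nhds 0) :=
    tendsto_pow_atTop_nhds_zero_of_lt_one (by have := rho_pos; positivity)
      ((div_lt_one rho_pos).mpr hc2)
  have hev : ∀ᶠ n : ℕ in atTop, (c' / rho) ^ n < 2 / 3 :=
    hlim.eventually (gt_mem_nhds (by norm_num))
  apply Eventually.frequently
  filter_upwards [hev, eventually_gt_atTop 0] with d h1 hd
  rw [div_pow, div_lt_iff₀ (pow_pos rho_pos d)] at h1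
  have h2 : c' ^ d ≤ f m d := h1.le.trans (h d)
  have hdpos : d ≠ 0 := by omega
  calc c' = (c' ^ d) ^ (1 / (d : ℝ)) := by
        rw [one_div, Real.pow_rpow_inv_natCast hc0.le hdpos]
    _ ≤ ((f m d : ℕ) : ℝ) ^ (1 / (d : ℝ)) :=
        Real.rpow_le_rpow (by positivity) h2 (by positivity)

/-- **Main result.** With `ρ = √(2 + 2√2) = 2.1973...`: for every odd `m ≥ 3` and every `n` the
Erdős-Ginzburg-Ziv constant of `(Z/m)^n` is at least `(2/3) ρ^n (m - 1) + 1` and
`f_m(n) ≥ (2/3) ρ^n`; for each `n` one set `X` of at least `(2/3) ρ^n` vectors with coordinates in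
`{-1, 0, 1}` has only constant sequences of length `m` with sum divisible by `m`, for all odd `m`;
and `Λ_m ≥ ρ` for every odd `m ≥ 3`. -/
theorem result :
    (∀ m n : ℕ, Odd m → 3 ≤ m → (∀ s : ℕ, egz m n ≤ s ↔ HasZeroSum m n s) ∧
      2 / 3 * √(2 + 2 * √2) ^ n * ((m : ℝ) - 1) + 1 ≤ egz m n ∧
      2 / 3 * √(2 + 2 * √2) ^ n ≤ f m n) ∧
    (∀ n : ℕ, ∃ X : Finset (Fin n → ℤ), (∀ x ∈ X, ∀ i, |x i| ≤ 1) ∧
      2 / 3 * √(2 + 2 * √2) ^ n ≤ X.card ∧
      ∀ m : ℕ, Odd m → ∀ x : Fin m → (Fin n → ℤ), (∀ j, x j ∈ X) →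
        (∀ i, (m : ℤ) ∣ ∑ j, x j i) → ∀ j k, x j = x k) ∧
    (∀ m : ℕ, Odd m → 3 ≤ m → √(2 + 2 * √2) ≤ Lam m) := by
  have key : ∀ m n : ℕ, Odd m → 3 ≤ m → 2 / 3 * √(2 + 2 * √2) ^ n ≤ f m n := by
    intro m n hm h3
    obtain ⟨X, h1, h2, h4⟩ := exists_good n
    have h5 : (X.card : ℝ) ≤ f m n := by exact_mod_cast good_le_f hm h3 h1 h2
    exact h4.trans h5
  refine ⟨?_, ?_, ?_⟩
  · intro m n hm h3
    have hne : HasZeroSum m n ((2 * n).choose n * (m - 1) + 1) := fun g =>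
      Pool.Agent.EGZ81.exists_zero_sum n m _ (by omega) le_rfl g
    have hmem : HasZeroSum m n (egz m n) := by
      have h : egz m n ∈ {s : ℕ | HasZeroSum m n s} :=
        Nat.sInf_mem (s := {s : ℕ | HasZeroSum m n s}) ⟨_, hne⟩
      exact h
    refine ⟨fun s => ⟨fun h => hasZeroSum_mono hmem h, fun h => Nat.sInf_le h⟩, ?_, key m n hm h3⟩
    obtain ⟨X, h1, h2, h4⟩ := exists_good n
    have h5 := card_lt hm h3 h2 hmem
    have h6 : (X.card : ℝ) * ((m : ℝ) - 1) + 1 ≤ egz m n := by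
      have h7 : X.card * (m - 1) + 1 ≤ egz m n := h5
      have h8 : ((X.card * (m - 1) + 1 : ℕ) : ℝ) ≤ egz m n := by exact_mod_cast h7
      rw [Nat.cast_add, Nat.cast_mul, Nat.cast_sub (by omega : 1 ≤ m)] at h8
      simpa using h8
    have h9 : (0 : ℝ) ≤ (m : ℝ) - 1 := by
      have : (3 : ℝ) ≤ m := by exact_mod_cast h3
      linarith
    have h10 := mul_le_mul_of_nonneg_right h4 h9
    have h11 : 2 / 3 * √(2 + 2 * √2) ^ n * ((m : ℝ) - 1) ≤ (X.card : ℝ) * ((m : ℝ) - 1) := h10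
    linarith
  · intro n
    obtain ⟨X, h1, h2, h4⟩ := exists_good n
    exact ⟨X, h1, h4, h2⟩
  · intro m hm h3
    exact le_Lam h3 fun n => key m n hm h3

end Pool.Agent.Results.MP_fc504f_co.GrowthBound
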